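import Pool.Agent.H39.Fin9

set_option autoImplicit false

/-!
# The supercongruences for `S(p) = ∑_{j<p} binom(2j,j) T_{2j}(9,20)² / 4^j` (complete answer to Q1)

The proof: writing `T_n(9,20) = P_n(9)` and expanding the square of a Legendre polynomial, `4^(p-1) S(p)` is a polynomial
in `t = -20` whose coefficients satisfy a first order recurrence modulo `p²`; it is compared modulo `p²`, by a second
order differential equation in `r` with `r² = 81/80`, with the truncated sum at `-1/80` and `binom(2D,D)`, `p = 4D+1`.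
The truncated sum is evaluated at the CM point of discriminant `-100`, its sign by a Hasse invariant.
-/

open Finset

namespace Pool.Agent.Results.MP_ff9ca0_nt.NineTwenty

/-- the coefficient of `x^n` in `(x² + b x + c)^n` -/
def T (b c : ℤ) (n : ℕ) : ℤ :=
  ∑ j ∈ range (n / 2 + 1), (n.choose (2 * j) : ℤ) * ((2 * j).choose j : ℤ) * c ^ j * b ^ (n - 2 * j)

/-- the sum `S(p) = ∑_{j<p} binom(2j,j) T_{2j}(9,20)² / 4^j` -/
def S (p : ℕ) : ℚ := ∑ j ∈ range p, ((2 * j).choose j : ℚ) * (T 9 20 (2 * j) : ℚ) ^ 2 / 4 ^ j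

/-- congruence modulo `p²` of rational numbers: `(a - b) / p²` has denominator prime to `p` -/
def Cong (p : ℕ) (a b : ℚ) : Prop := p.Coprime ((a - b) / (p : ℚ) ^ 2).den

open Pool.Agent.H546 Pool.Agent.H39

theorem S_eq (p : ℕ) (hp : 0 < p) : (4 : ℚ) ^ (p - 1) * S p = ((N0 p : ℤ) : ℚ) := by
  rw [N0_eq p hp]
  unfold S
  rw [mul_sum]
  push_cast
  refine sum_congr rfl fun j hj => ?_
  rw [mem_range] at hj
  have e1 : (4 : ℚ) ^ (p - 1) = 4 ^ (p - 1 - j) * 4 ^ j := by rw [← pow_add]; congr 1; omega
  have e2 : T 9 20 (2 * j) = tc 9 20 (2 * j) := rfl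
  have e3 : ((j.centralBinom : ℕ) : ℚ) = (((2 * j).choose j : ℕ) : ℚ) := rfl
  have h4 : (4 : ℚ) ^ j ≠ 0 := by positivity
  rw [e1, e2, e3]
  field_simp

theorem n3 : N0 3 = 4839817950 := by
  rw [N0_eq 3 (by norm_num)]
  norm_num [tc, sum_range_succ, Nat.centralBinom, Nat.choose]

theorem n13 : N0 13 = 54950525774654827220667663038444101649083936710701629299229517500 := by
  rw [N0_eq 13 (by norm_num)]
  norm_num [tc, sum_range_succ, Nat.centralBinom, Nat.choose]

theorem n17 : N0 17 = 1061379552382731872763640107275349829666500639447886173987940729159837494338976133880070 := by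
  rw [N0_eq 17 (by norm_num)]
  norm_num [tc, sum_range_succ, Nat.centralBinom, Nat.choose]

instance f5 : Fact (Nat.Prime 5) := ⟨by norm_num⟩

/-- **The full answer to Q1: for every odd prime `p` the three congruences hold.** -/
theorem result (p : ℕ) (hp : p.Prime) (h2 : p ≠ 2) :
    ((p % 20 = 1 ∨ p % 20 = 9) → ∀ x y : ℤ, (p : ℤ) = x ^ 2 + 25 * y ^ 2 → Cong p (S p) (4 * (x : ℚ) ^ 2 - 2 * p)) ∧
    ((p % 20 = 13 ∨ p % 20 = 17) → ∀ x y : ℤ, (p : ℤ) = x ^ 2 + y ^ 2 → Odd x → x * y ≡ 1 [ZMOD 5] →
      Cong p (S p) (4 * (x : ℚ) * y * legendreSym 5 x)) ∧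
    (p % 4 = 3 → Cong p (S p) 0) := by
  have hF : Fact p.Prime := ⟨hp⟩
  have hS := S_eq p hp.pos
  refine ⟨fun h x y hxy => ?_, fun h x y hxy hx hm => ?_, fun h => ?_⟩
  · have h20 : 20 < p := by
      by_contra hc
      have : p ≤ 20 := by omega
      interval_cases p <;> first | omega | (revert hp; norm_num)
    have hc : (p : ℤ) ^ 2 ∣ N0 p - 4 ^ (p - 1) * (4 * x ^ 2 - 2 * p) := by
      rcases Int.emod_two_eq_zero_or_one x with hx | hx
      · have hy : (5 * y) % 2 = 1 := by
          rcases Int.emod_two_eq_zero_or_one y with hy | hy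
          · exfalso
            obtain ⟨a, rfl⟩ : ∃ a, x = 2 * a := ⟨x / 2, by omega⟩
            obtain ⟨b, rfl⟩ : ∃ b, y = 2 * b := ⟨y / 2, by omega⟩
            have : (p : ℤ) = 2 * (2 * a ^ 2 + 50 * b ^ 2) := by rw [hxy]; ring
            omega
          · omega
        exact ((one9 p (by omega) h20 (x := 5 * y) (y := x) (by rw [hxy]; ring) hy).1 (by omega)).2 ⟨y, rfl⟩
      · exact ((one9 p (by omega) h20 (x := x) (y := 5 * y) (by rw [hxy]; ring) hx).1 (by omega)).1 ⟨y, rfl⟩
    have := rat_cong p hp h2 hc hS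
    push_cast at this
    exact this
  · have hm' : x * y % 5 = 1 := hm
    have hx2 := Int.odd_iff.mp hx
    -- the sign
    have hsg : ((5 : ℤ) ∣ x + y ∧ legendreSym 5 x = -1) ∨ ((5 : ℤ) ∣ x + (-y) ∧ legendreSym 5 x = 1) := by
      have e1 : (x + y) % 5 = (x % 5 + y % 5) % 5 := Int.add_emod _ _ _
      have e2 : (x + -y) % 5 = (x % 5 - y % 5) % 5 := by rw [← sub_eq_add_neg]; exact Int.sub_emod _ _ _
      have e3 : legendreSym 5 x = legendreSym 5 (x % 5) := by
        have := legendreSym.mod 5 x
        exact_mod_cast this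
      have hx := Int.emod_nonneg x (by norm_num : (5 : ℤ) ≠ 0)
      have hx' := Int.emod_lt_of_pos x (by norm_num : (0 : ℤ) < 5)
      have hy := Int.emod_nonneg y (by norm_num : (5 : ℤ) ≠ 0)
      have hy' := Int.emod_lt_of_pos y (by norm_num : (0 : ℤ) < 5)
      rw [Int.mul_emod] at hm'
      rw [Int.dvd_iff_emod_eq_zero, Int.dvd_iff_emod_eq_zero, e1, e2, e3]
      generalize x % 5 = a at *
      generalize y % 5 = b at *
      interval_cases a <;> interval_cases b <;> first | (exfalso; revert hm'; norm_num; done) | skip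
      all_goals first | (left; exact ⟨by norm_num, by decide⟩) | (right; exact ⟨by norm_num, by decide⟩)
    have hc : (p : ℤ) ^ 2 ∣ N0 p - 4 ^ (p - 1) * (4 * x * y * legendreSym 5 x) := by
      by_cases h20 : 20 < p
      · have key := (one9 p (by omega) h20 hxy hx2).2 (by omega)
        rcases hsg with ⟨h5, hl⟩ | ⟨h5, hl⟩
        · rw [hl]
          have := key.1 h5
          have e : (4 * x * y * -1 : ℤ) = -(4 * x * y) := by ring
          rw [e]; exact this
        · rw [hl, mul_one]
          exact key.2 h5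
      · have hp' : p = 13 ∨ p = 17 := by
          have : p ≤ 20 := by omega
          omega
        have bd : (-5 < x ∧ x < 5) ∧ (-5 < y ∧ y < 5) := by
          have h' : (p : ℤ) ≤ 20 := by omega
          refine ⟨⟨?_, ?_⟩, ⟨?_, ?_⟩⟩ <;> nlinarith [sq_nonneg x, sq_nonneg y]
        obtain ⟨⟨b1, b2⟩, ⟨b3, b4⟩⟩ := bd
        rcases hp' with rfl | rfl
        · rw [n13]
          have hxx : (x = 3 ∧ y = 2) ∨ (x = -3 ∧ y = -2) := by
            push_cast at hxy
            interval_cases y <;> interval_cases x <;> omega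
          have l1 : legendreSym 5 3 = -1 := by decide
          have l2 : legendreSym 5 (-3) = -1 := by decide
          rcases hxx with ⟨rfl, rfl⟩ | ⟨rfl, rfl⟩
          · rw [l1]; norm_num
          · rw [l2]; norm_num
        · rw [n17]
          have hxx : (x = 1 ∧ y = -4) ∨ (x = -1 ∧ y = 4) := by
            push_cast at hxy
            interval_cases y <;> interval_cases x <;> omega
          have l1 : legendreSym 5 1 = 1 := by decide
          have l2 : legendreSym 5 (-1) = 1 := by decide
          rcases hxx with ⟨rfl, rfl⟩ | ⟨rfl, rfl⟩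
          · rw [l1]; norm_num
          · rw [l2]; norm_num
    have := rat_cong p hp h2 hc hS
    push_cast at this
    exact this
  · have hc : (p : ℤ) ^ 2 ∣ N0 p - 4 ^ (p - 1) * 0 := by
      rw [mul_zero, sub_zero]
      by_cases h7 : 7 ≤ p
      · exact three9 p h h7
      · have : p = 3 := by omega
        subst this
        rw [n3]; norm_num
    have := rat_cong p hp h2 hc hS
    push_cast at this
    exact this

end Pool.Agent.Results.MP_ff9ca0_nt.NineTwenty
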